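import Mathlib

/-!
# The number of label tuples with bounded total size
-/

namespace Pool.Agent.Hhelper82.AM

open Finset

/-- The number of tuples of length `p` with entries in `S` and total size at most `n`, when there
are at most `kap ^ k` entries of size `k`. -/
theorem card_tuples {A : Type} [DecidableEq A] (S : Finset A) (sz : A → ℕ) (kap p n : ℕ)
    (hk : 1 ≤ kap)
    (h : ∀ k ≤ n, (S.filter (fun a => sz a = k)).card ≤ kap ^ k) :
    ((Fintype.piFinset (fun _ : Fin p => S)).filter (fun y => ∑ j, sz (y j) ≤ n)).card
      ≤ 2 ^ p * (2 * kap) ^ n := by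
  induction p generalizing n with
  | zero =>
    have h1 : ((Fintype.piFinset (fun _ : Fin 0 => S)).filter
        (fun y => ∑ j, sz (y j) ≤ n)).card ≤ 1 := by
      refine le_trans (Finset.card_filter_le _ _) ?_
      rw [Fintype.card_piFinset]
      simp
    refine le_trans h1 ?_
    have : 1 ≤ (2 * kap) ^ n := Nat.one_le_pow _ _ (by omega)
    simpa using this
  | succ p ih =>
    -- the map (first entry, tail)
    have key : ((Fintype.piFinset (fun _ : Fin (p + 1) => S)).filter
        (fun y => ∑ j, sz (y j) ≤ n)).card ≤
        ∑ k ∈ Finset.range (n + 1), (S.filter (fun a => sz a = k)).card *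
          ((Fintype.piFinset (fun _ : Fin p => S)).filter
            (fun y => ∑ j, sz (y j) ≤ n - k)).card := by
      have hsub : ((Fintype.piFinset (fun _ : Fin (p + 1) => S)).filter
          (fun y => ∑ j, sz (y j) ≤ n)) ⊆
          (Finset.range (n + 1)).biUnion (fun k =>
            ((S.filter (fun a => sz a = k)) ×ˢ
              ((Fintype.piFinset (fun _ : Fin p => S)).filter
                (fun y => ∑ j, sz (y j) ≤ n - k))).image
              (fun q => (Fin.cons q.1 q.2 : Fin (p + 1) → A))) := by
        intro y hy
        rw [Finset.mem_filter, Fintype.mem_piFinset] at hy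
        obtain ⟨hyS, hyn⟩ := hy
        rw [Fin.sum_univ_succ] at hyn
        rw [Finset.mem_biUnion]
        refine ⟨sz (y 0), Finset.mem_range.2 (by omega), ?_⟩
        rw [Finset.mem_image]
        refine ⟨(y 0, Fin.tail y), ?_, Fin.cons_self_tail y⟩
        rw [Finset.mem_product, Finset.mem_filter, Finset.mem_filter, Fintype.mem_piFinset]
        refine ⟨⟨hyS 0, rfl⟩, fun j => hyS j.succ, ?_⟩
        show ∑ j, sz (y (Fin.succ j)) ≤ n - sz (y 0)
        omega
      refine le_trans (Finset.card_le_card hsub) ?_
      refine le_trans Finset.card_biUnion_le ?_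
      refine Finset.sum_le_sum fun k _ => ?_
      refine le_trans Finset.card_image_le ?_
      rw [Finset.card_product]
    refine le_trans key ?_
    have hstep : ∀ k ∈ Finset.range (n + 1), (S.filter (fun a => sz a = k)).card *
          ((Fintype.piFinset (fun _ : Fin p => S)).filter
            (fun y => ∑ j, sz (y j) ≤ n - k)).card ≤
          2 ^ p * (kap ^ n * 2 ^ (n - k)) := by
      intro k hk'
      have hkn : k ≤ n := by
        have := Finset.mem_range.1 hk'
        omega
      have h1 := h k hkn
      have h2 := ih (n - k) (fun j hj => h j (by omega))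
      calc _ ≤ kap ^ k * (2 ^ p * (2 * kap) ^ (n - k)) := Nat.mul_le_mul h1 h2
        _ = 2 ^ p * (kap ^ n * 2 ^ (n - k)) := by
          have : kap ^ n = kap ^ k * kap ^ (n - k) := by
            rw [← pow_add]; congr 1; omega
          rw [this, mul_pow]
          ring
    refine le_trans (Finset.sum_le_sum hstep) ?_
    rw [← Finset.mul_sum, ← Finset.mul_sum]
    have hgeo : ∑ k ∈ Finset.range (n + 1), 2 ^ (n - k) ≤ 2 * 2 ^ n := by
      have h3 : ∑ k ∈ Finset.range (n + 1), 2 ^ (n - k) = ∑ k ∈ Finset.range (n + 1), 2 ^ k := by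
        rw [← Finset.sum_range_reflect (fun k => 2 ^ k) (n + 1)]
        refine Finset.sum_congr rfl fun k _ => ?_
        simp
      rw [h3]
      have h4 : ∀ m : ℕ, ∑ k ∈ Finset.range m, 2 ^ k < 2 ^ m := by
        intro m
        induction m with
        | zero => simp
        | succ m ihm => rw [Finset.sum_range_succ, pow_succ]; omega
      have h5 := h4 (n + 1)
      rw [pow_succ] at h5
      omega
    calc 2 ^ p * (kap ^ n * ∑ k ∈ Finset.range (n + 1), 2 ^ (n - k))
        ≤ 2 ^ p * (kap ^ n * (2 * 2 ^ n)) :=
          Nat.mul_le_mul_left _ (Nat.mul_le_mul_left _ hgeo)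
      _ = 2 ^ (p + 1) * (2 * kap) ^ n := by
          rw [mul_pow, pow_succ]; ring

end Pool.Agent.Hhelper82.AM
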